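import Pool.Agent.V1192.Fre

/-!
# MP_5446c4_an, Q1

There is a Fréchet algebra all of whose injective Fréchet modules are zero, namely the algebra
`z ℂ[[z]]` of formal power series without constant term.
-/

universe u

namespace Pool.Agent.Results.MP_5446c4_an.NoInjective

open Pool.Agent.V1192

/-- There is a Fréchet algebra `A` such that no non-zero Fréchet `A`-module is injective. -/
theorem result : ∃ A : Fre.FreAlg.{0}, ∀ J : Fre.FreMod.{u} A, Fre.IsInj J → ∀ x : J.E, x = 0 :=
  ⟨Fre.zSer, Fre.eq_zero_of_inj⟩

end Pool.Agent.Results.MP_5446c4_an.NoInjective
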